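import Pool.Agent.Helper16_XQ.StmtG
import Pool.Agent.Helper69_AEU.Lam

/-!
Squad XQ, part G, modules ARC and ARZ: Jensen's inequality on an arc and the splitting of an arc.
-/

set_option autoImplicit false

namespace Pool.Agent.XQ

open MeasureTheory Complex Filter Topology Pool.Agent.H62T
open Pool.Agent.H16F (Sublin)
open Pool.Agent.AEU Pool.Agent.AEU.H69

namespace H31

/-- the integral of the unit vectors of an arc -/
theorem int_arc (a b : ℝ) (y : ℂ) :
    ∫ θ in a..b, ip (ee θ) y = ip (I * ee a - I * ee b) y := by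
  simp only [ip_ee]
  rw [intervalIntegral.integral_add (Continuous.intervalIntegrable (by fun_prop) _ _)
    (Continuous.intervalIntegrable (by fun_prop) _ _), intervalIntegral.integral_mul_const,
    intervalIntegral.integral_mul_const, integral_cos, integral_sin]
  have h1 : ∀ t : ℝ, ee t = (Real.cos t : ℂ) + (Real.sin t : ℂ) * I := by
    intro t
    unfold ee
    rw [Complex.exp_mul_I, Complex.ofReal_cos, Complex.ofReal_sin]
  rw [h1, h1]
  simp only [ip, sub_re, sub_im, mul_re, mul_im, add_re, add_im, ofReal_re, ofReal_im, I_re, I_im]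
  ring

theorem ii_ip (a b : ℝ) (y : ℂ) : IntervalIntegrable (fun θ => ip (ee θ) y) volume a b :=
  ((ip_cont y).comp ee_cont).intervalIntegrable a b

theorem arc_le {h : ℂ → ℝ} (hh : Sublin h) {a b : ℝ} (hab : a ≤ b) :
    h (I * ee a - I * ee b) ≤ ∫ θ in a..b, h (ee θ) := by
  obtain ⟨y, hy, hy'⟩ := exists_contact hh (I * ee a - I * ee b)
  rw [← hy', ← int_arc]
  exact intervalIntegral.integral_mono_on hab (ii_ip a b y) (sub_ii hh a b) fun θ _ => hy _

theorem arc_eq {h : ℂ → ℝ} (hh : Sublin h) {a b : ℝ} (hab : a < b)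
    (hle : ∫ θ in a..b, h (ee θ) ≤ h (I * ee a - I * ee b)) :
    ∃ y : ℂ, In y h ∧ ∀ θ ∈ Set.Icc a b, h (ee θ) = ip (ee θ) y := by
  obtain ⟨y, hy, hy'⟩ := exists_contact hh (I * ee a - I * ee b)
  refine ⟨y, hy, ?_⟩
  by_contra hne
  push Not at hne
  obtain ⟨θ, hθ, hne⟩ := hne
  have hlt : ip (ee θ) y < h (ee θ) := lt_of_le_of_ne (hy _) (Ne.symm hne)
  have := intervalIntegral.integral_lt_integral_of_continuousOn_of_le_of_exists_lt hab
    ((ip_cont y).comp ee_cont).continuousOn ((sub_cont hh).comp ee_cont).continuousOn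
    (fun x _ => hy _) ⟨θ, hθ, hlt⟩
  simp only [Function.comp_apply] at this
  rw [int_arc, hy'] at this
  linarith

end H31

/-- ARC -/
theorem arc : ArcStatement := by
  intro h hh a b hab _
  exact ⟨H31.arc_le hh hab, fun hle hab' => H31.arc_eq hh hab' hle⟩

end Pool.Agent.XQ
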