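import Pool.Agent.Helper31_XQ.ARC

/-!
Squad XQ, part G, module ARZ: splitting of an arc.
-/

set_option autoImplicit false

namespace Pool.Agent.XQ

open MeasureTheory Complex Filter Topology Pool.Agent.H62T
open Pool.Agent.H16F (Sublin)
open Pool.Agent.AEU Pool.Agent.AEU.H69

namespace H31

theorem ee_eq (t : ℝ) : ee t = (Real.cos t : ℂ) + (Real.sin t : ℂ) * I := by
  unfold ee
  rw [Complex.exp_mul_I, Complex.ofReal_cos, Complex.ofReal_sin]

theorem ee_re (t : ℝ) : (ee t).re = Real.cos t := by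
  rw [ee_eq]
  simp only [add_re, mul_re, ofReal_re, ofReal_im, I_re, I_im]
  ring

theorem ee_im (t : ℝ) : (ee t).im = Real.sin t := by
  rw [ee_eq]
  simp only [add_im, mul_im, ofReal_re, ofReal_im, I_re, I_im]
  ring

/-- the point of the unit circle -/
noncomputable def W (t : ℝ) : ℂ := I * ee t

theorem W_re (t : ℝ) : (W t).re = -Real.sin t := by simp [W, ee_re, ee_im]

theorem W_im (t : ℝ) : (W t).im = Real.cos t := by simp [W, ee_re, ee_im]

theorem W_cont : Continuous W := by
  unfold W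
  exact continuous_const.mul ee_cont

theorem norm_W (t : ℝ) : ‖W t‖ = 1 := by
  unfold W
  rw [norm_mul, Complex.norm_I, norm_ee, one_mul]

/-- `z` is a convex combination of three points -/
def Tr (z A C B : ℂ) : Prop := ∃ l m n : ℝ, 0 ≤ l ∧ 0 ≤ m ∧ 0 ≤ n ∧ l + m + n = 1 ∧
  z = l * A + m * C + n * B

theorem tr_le {h : ℂ → ℝ} (hh : Sublin h) {z A C B : ℂ} (ht : Tr z A C B) :
    h (A - z) + h (z - B) ≤ h (A - C) + h (C - B) := by
  obtain ⟨l, m, n, hl, hm, hn, hs, rfl⟩ := ht
  have hs' : (l : ℂ) + m + n = 1 := by exact_mod_cast hs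
  have e1 : A - (l * A + m * C + n * B) = ((m + n : ℝ) : ℂ) * (A - C) + (n : ℂ) * (C - B) := by
    push_cast
    linear_combination (-A) * hs'
  have e2 : l * A + m * C + n * B - B = (l : ℂ) * (A - C) + ((l + m : ℝ) : ℂ) * (C - B) := by
    push_cast
    linear_combination (B) * hs'
  rw [e1, e2]
  have h1 := hh.1 (((m + n : ℝ) : ℂ) * (A - C)) ((n : ℂ) * (C - B))
  have h2 := hh.1 ((l : ℂ) * (A - C)) (((l + m : ℝ) : ℂ) * (C - B))
  rw [hh.2 _ _ (by linarith), hh.2 _ _ hn] at h1
  rw [hh.2 _ _ (by linarith), hh.2 _ _ (by linarith)] at h2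
  have e3 : (m + n) * h (A - C) + n * h (C - B) + (l * h (A - C) + (l + m) * h (C - B))
      = (l + m + n) * h (A - C) + (l + m + n) * h (C - B) := by ring
  rw [hs] at e3
  linarith

theorem tr_eq {h : ℂ → ℝ} (hh : Sublin h) {z A C B y : ℂ} (ht : Tr z A C B) (hy : In y h)
    (h1 : h (A - C) = ip (A - C) y) (h2 : h (C - B) = ip (C - B) y) :
    h (A - z) = ip (A - z) y ∧ h (z - B) = ip (z - B) y := by
  have hle := tr_le hh ht
  have a1 := hy (A - z)
  have a2 := hy (z - B)
  have e : ip (A - z) y + ip (z - B) y = ip (A - C) y + ip (C - B) y := by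
    rw [← ip_add_left, ← ip_add_left]
    congr 1
    ring
  constructor <;> linarith

/-- barycentric coordinates -/
theorem tr_of {z A C B : ℂ} (hF : 0 ≤ dt (C - A) (z - A)) (hG : 0 ≤ dt (B - C) (z - C))
    (hH : 0 < dt (A - B) (z - B)) : Tr z A C B := by
  set F := dt (C - A) (z - A) with hFd
  set G := dt (B - C) (z - C) with hGd
  set H := dt (A - B) (z - B) with hHd
  have hT : 0 < G + H + F := by linarith
  refine ⟨G / (G + H + F), H / (G + H + F), F / (G + H + F), by positivity, by positivity,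
    by positivity, by field_simp, ?_⟩
  have key : ((G + H + F : ℝ) : ℂ) * z = (G : ℂ) * A + (H : ℂ) * C + (F : ℂ) * B := by
    apply Complex.ext
    · simp only [hFd, hGd, hHd, dt, add_re, mul_re, ofReal_re, ofReal_im, sub_re, sub_im]
      ring
    · simp only [hFd, hGd, hHd, dt, add_im, mul_im, ofReal_re, ofReal_im, sub_re, sub_im]
      ring
  have hT' : ((G + H + F : ℝ) : ℂ) ≠ 0 := by exact_mod_cast hT.ne'
  have : z = ((G : ℂ) * A + (H : ℂ) * C + (F : ℂ) * B) / ((G + H + F : ℝ) : ℂ) := by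
    rw [eq_div_iff hT', ← key]
    ring
  rw [this]
  push_cast
  ring

/-- the chord of an arc -/
theorem W_sub (a c : ℝ) : W c - W a
    = ((-2 * Real.sin ((c - a) / 2) : ℝ) : ℂ) * ee ((a + c) / 2) := by
  have h1 : Real.cos c - Real.cos a = -2 * Real.sin ((c + a) / 2) * Real.sin ((c - a) / 2) :=
    Real.cos_sub_cos c a
  have h2 : Real.sin c - Real.sin a = 2 * Real.sin ((c - a) / 2) * Real.cos ((c + a) / 2) :=
    Real.sin_sub_sin c a
  have h3 : (c + a) / 2 = (a + c) / 2 := by ring
  rw [h3] at h1 h2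
  apply Complex.ext
  · simp only [sub_re, W_re, mul_re, ofReal_re, ofReal_im, ee_re, ee_im]
    linarith only [h2]
  · simp only [sub_im, W_im, mul_im, ofReal_re, ofReal_im, ee_re, ee_im]
    linarith

theorem dt_smul_left (r : ℝ) (z w : ℂ) : dt ((r : ℂ) * z) w = r * dt z w := by
  simp only [dt, mul_re, mul_im, ofReal_re, ofReal_im]
  ring

theorem dt_smul_right (r : ℝ) (z w : ℂ) : dt z ((r : ℂ) * w) = r * dt z w := by
  simp only [dt, mul_re, mul_im, ofReal_re, ofReal_im]
  ring

theorem dt_ee (s t : ℝ) : dt (ee s) (ee t) = Real.sin (t - s) := by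
  simp only [dt, ee_re, ee_im, Real.sin_sub]
  ring

theorem dt_ee_W (s : ℝ) (v : ℂ) : dt (ee s) v = ip v (W s) := by
  simp only [dt, ip, ee_re, ee_im, W_re, W_im]
  ring

theorem geo {a b : ℝ} {z : ℂ} (hab : a < b) (hba : b ≤ a + Real.pi) (hz : ‖z‖ < 1)
    (hm : 0 < ip (z - W a) (W ((a + b) / 2))) :
    ∃ c₁ c₂, a < c₁ ∧ c₁ < c₂ ∧ c₂ < b ∧ Tr z (W a) (W c₁) (W b) ∧ Tr z (W a) (W c₂) (W b) := by
  have hpi := Real.pi_pos
  -- the zero of the sine function
  have hcont : Continuous fun φ => ip (z - W a) (W φ) := by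
    simp only [ip, W_re, W_im]
    fun_prop
  have ha0 : ip (z - W a) (W a) < 0 := by
    rw [ip_sub_left]
    have h1 := ip_le z (W a)
    rw [norm_W, mul_one] at h1
    have h2 : ip (W a) (W a) = 1 := by
      simp only [ip, W_re, W_im]
      linarith only [Real.sin_sq_add_cos_sq a]
    linarith
  obtain ⟨φ, hφ, hφ0⟩ : ∃ φ ∈ Set.Ioo a ((a + b) / 2), ip (z - W a) (W φ) = 0 := by
    have := intermediate_value_Ioo (by linarith : a ≤ (a + b) / 2) hcont.continuousOn
    exact this ⟨ha0, hm⟩
  obtain ⟨hφa, hφm⟩ := hφ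
  set τ := ip (z - W a) (ee φ) with hτ
  have hV : z - W a = (τ : ℂ) * ee φ := by
    have hcs := Real.sin_sq_add_cos_sq φ
    simp only [ip, W_re, W_im, ee_re, ee_im] at hφ0 hτ
    apply Complex.ext
    · simp only [mul_re, ofReal_re, ofReal_im, ee_re, ee_im, hτ]
      linear_combination (-(z - W a).re) * hcs - Real.sin φ * hφ0
    · simp only [mul_im, ofReal_re, ofReal_im, ee_re, ee_im, hτ]
      linear_combination (-(z - W a).im) * hcs + Real.cos φ * hφ0
  set S := Real.sin (φ - a) with hS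
  have hSpos : 0 < S := Real.sin_pos_of_pos_of_lt_pi (by linarith) (by linarith)
  have hτ0 : τ < 0 := by
    have h1 : ip (z - W a) (W a) = τ * S := by
      rw [← dt_ee_W, hV, dt_smul_right, dt_ee]
    rw [h1] at ha0
    by_contra hcon
    push Not at hcon
    linarith only [ha0, mul_nonneg hcon hSpos.le]
  have hτS : -τ < 2 * S := by
    have hz2 : z.re ^ 2 + z.im ^ 2 < 1 := by
      have h1 := Complex.sq_norm z
      rw [Complex.normSq_apply] at h1
      nlinarith only [hz, h1, norm_nonneg z]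
    have hre : z.re = -Real.sin a + τ * Real.cos φ := by
      have := congrArg Complex.re hV
      simp only [sub_re, W_re, mul_re, ofReal_re, ofReal_im, ee_re, ee_im] at this
      linarith
    have him : z.im = Real.cos a + τ * Real.sin φ := by
      have := congrArg Complex.im hV
      simp only [sub_im, W_im, mul_im, ofReal_re, ofReal_im, ee_re, ee_im] at this
      linarith
    have e : z.re ^ 2 + z.im ^ 2 = 1 + τ * (τ + 2 * S) := by
      rw [hre, him, hS, Real.sin_sub]
      have h1 := Real.sin_sq_add_cos_sq a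
      have h2 := Real.sin_sq_add_cos_sq φ
      linear_combination h1 + τ ^ 2 * h2
    rw [e] at hz2
    by_contra hcon
    push Not at hcon
    linarith only [hz2, mul_nonneg_of_nonpos_of_nonpos hτ0.le (by linarith : τ + 2 * S ≤ 0)]
  -- the second end of the chord through `z`
  set c := 2 * φ - a with hc
  have hca : a < c := by rw [hc]; linarith
  have hcb : c < b := by rw [hc]; linarith
  set s := -τ / (2 * S) with hs
  have hs0 : 0 < s := div_pos (by linarith) (by linarith)
  have hs1 : s < 1 := (div_lt_one (by linarith)).2 hτS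
  have hchord : W c - W a = ((-2 * S : ℝ) : ℂ) * ee φ := by
    rw [W_sub]
    have e1 : (c - a) / 2 = φ - a := by rw [hc]; ring
    have e2 : (a + c) / 2 = φ := by rw [hc]; ring
    rw [e1, e2]
  have hzs : z - W a = (s : ℂ) * (W c - W a) := by
    rw [hV, hchord, ← mul_assoc]
    congr 1
    rw [← Complex.ofReal_mul]
    congr 1
    rw [hs]
    field_simp
  have hTr2 : Tr z (W a) (W c) (W b) := by
    refine ⟨1 - s, s, 0, by linarith, hs0.le, le_rfl, by ring, ?_⟩
    push_cast
    linear_combination hzs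
  -- the functions F, G, H
  have hH : 0 < dt (W a - W b) (z - W b) := by
    have hsin : 0 < Real.sin ((b - a) / 2) :=
      Real.sin_pos_of_pos_of_lt_pi (by linarith) (by linarith)
    have e1 : W a - W b = ((2 * Real.sin ((b - a) / 2) : ℝ) : ℂ) * ee ((a + b) / 2) := by
      have := W_sub a b
      rw [← neg_sub, this]
      push_cast
      ring
    have e2 : dt (W a - W b) (z - W b) = dt (W a - W b) (z - W a) := by
      simp only [dt, sub_re, sub_im]
      ring
    rw [e2, e1, dt_smul_left, dt_ee_W]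
    positivity
  have hG : ∀ᶠ x in 𝓝 c, 0 < dt (W b - W x) (z - W x) := by
    have hcG : Continuous fun x => dt (W b - W x) (z - W x) := by
      simp only [dt, sub_re, sub_im, W_re, W_im]
      fun_prop
    have hpos : 0 < dt (W b - W c) (z - W c) := by
      have e1 : z - W c = ((1 - s : ℝ) : ℂ) * (W a - W c) := by
        push_cast
        linear_combination hzs
      have e2 : W a - W c = ((2 * S : ℝ) : ℂ) * ee φ := by
        rw [← neg_sub, hchord]
        push_cast
        ring
      have hsin : 0 < Real.sin ((b - c) / 2) :=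
        Real.sin_pos_of_pos_of_lt_pi (by linarith) (by linarith)
      have hsin2 : 0 < Real.sin ((c + b) / 2 - φ) :=
        Real.sin_pos_of_pos_of_lt_pi (by rw [hc]; linarith) (by rw [hc]; linarith)
      rw [e1, e2, dt_smul_right, dt_smul_right, W_sub c b, dt_smul_left, dt_ee]
      have e3 : Real.sin (φ - (c + b) / 2) = -Real.sin ((c + b) / 2 - φ) := by
        rw [← Real.sin_neg]
        congr 1
        ring
      rw [e3]
      have h1s : 0 < 1 - s := by linarith
      have := mul_pos h1s (mul_pos (mul_pos (by norm_num : (0 : ℝ) < 2) hSpos)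
        (mul_pos (mul_pos (by norm_num : (0 : ℝ) < 2) hsin) hsin2))
      linarith only [this]
    exact hcG.continuousAt.eventually (lt_mem_nhds hpos)
  obtain ⟨c₁, hc₁, hG₁⟩ : ∃ x ∈ Set.Ioo a c, 0 < dt (W b - W x) (z - W x) := by
    have h1 : ∀ᶠ x in 𝓝[<] c, 0 < dt (W b - W x) (z - W x) := hG.filter_mono nhdsWithin_le_nhds
    have h2 : ∀ᶠ x in 𝓝[<] c, x ∈ Set.Ioo a c := Ioo_mem_nhdsLT hca
    obtain ⟨x, hx1, hx2⟩ := (h1.and h2).exists
    exact ⟨x, hx2, hx1⟩
  refine ⟨c₁, c, hc₁.1, hc₁.2, hcb, tr_of ?_ hG₁.le hH, hTr2⟩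
  rw [W_sub, hV, dt_smul_left, dt_smul_right, dt_ee]
  have hs1' : 0 < Real.sin ((c₁ - a) / 2) :=
    Real.sin_pos_of_pos_of_lt_pi (by linarith [hc₁.1]) (by linarith [hc₁.2])
  have hs2' : 0 < Real.sin (φ - (a + c₁) / 2) :=
    Real.sin_pos_of_pos_of_lt_pi (by have := hc₁.2; rw [hc] at this; linarith)
      (by linarith [hc₁.1])
  linarith only [mul_nonneg (mul_nonneg hs1'.le hs2'.le) (by linarith : (0 : ℝ) ≤ -τ)]

/-- two unit vectors which are not parallel determine the point -/
theorem pt_eq {s t : ℝ} (hst : s < t) (ht : t < s + Real.pi) {x y : ℂ}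
    (h1 : ip (ee s) x = ip (ee s) y) (h2 : ip (ee t) x = ip (ee t) y) : x = y := by
  have hsin : 0 < Real.sin (t - s) := Real.sin_pos_of_pos_of_lt_pi (by linarith) (by linarith)
  rw [Real.sin_sub] at hsin
  rw [ip_ee, ip_ee] at h1 h2
  apply Complex.ext
  · have : (Real.sin t * Real.cos s - Real.cos t * Real.sin s) * (x.re - y.re) = 0 := by
      linear_combination Real.sin t * h1 - Real.sin s * h2
    rcases mul_eq_zero.1 this with h | h
    · exact absurd h hsin.ne'
    · linarith
  · have : (Real.sin t * Real.cos s - Real.cos t * Real.sin s) * (x.im - y.im) = 0 := by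
      linear_combination Real.cos s * h2 - Real.cos t * h1
    rcases mul_eq_zero.1 this with h | h
    · exact absurd h hsin.ne'
    · linarith

end H31

open H31

/-- ARZ -/
theorem arz : ArzStatement := by
  intro h hh a b z hab hba hz hm
  obtain ⟨c₁, c₂, h1, h12, h2, ht1, ht2⟩ := geo hab hba hz hm
  have hint : ∀ c, (∫ θ in a..c, h (ee θ)) + ∫ θ in c..b, h (ee θ) = ∫ θ in a..b, h (ee θ) :=
    fun c => intervalIntegral.integral_add_adjacent_intervals (sub_ii hh a c) (sub_ii hh c b)
  have hmain : h (W a - z) + h (z - W b) ≤ ∫ θ in a..b, h (ee θ) := by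
    have e1 := tr_le hh ht1
    have e2 := arc_le hh h1.le
    have e3 := arc_le hh (h12.trans h2).le
    have e4 := hint c₁
    change h (W a - W c₁) ≤ _ at e2
    change h (W c₁ - W b) ≤ _ at e3
    linarith
  refine ⟨hmain, fun hle => ?_⟩
  change (∫ θ in a..b, h (ee θ)) ≤ h (W a - z) + h (z - W b) at hle
  -- both splittings are sharp
  have hsharp : ∀ c, a < c → c < b → Tr z (W a) (W c) (W b) →
      (∃ y, In y h ∧ ∀ θ ∈ Set.Icc a c, h (ee θ) = ip (ee θ) y) ∧
        ∃ y, In y h ∧ ∀ θ ∈ Set.Icc c b, h (ee θ) = ip (ee θ) y := by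
    intro c hac hcb ht
    have e1 := tr_le hh ht
    have e2 := arc_le hh hac.le
    have e3 := arc_le hh hcb.le
    have e4 := hint c
    change h (W a - W c) ≤ _ at e2
    change h (W c - W b) ≤ _ at e3
    constructor
    · apply arc_eq hh hac
      change _ ≤ h (W a - W c)
      linarith
    · apply arc_eq hh hcb
      change _ ≤ h (W c - W b)
      linarith
  obtain ⟨_, y, hy, hyc⟩ := hsharp c₁ h1 (h12.trans h2) ht1
  obtain ⟨⟨y', hy', hyc'⟩, _⟩ := hsharp c₂ (h1.trans h12) h2 ht2
  have hyy : y = y' := by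
    apply pt_eq h12 (by linarith)
    · rw [← hyc c₁ ⟨le_rfl, (h12.trans h2).le⟩, ← hyc' c₁ ⟨h1.le, h12.le⟩]
    · rw [← hyc c₂ ⟨h12.le, h2.le⟩, ← hyc' c₂ ⟨(h1.trans h12).le, le_rfl⟩]
  subst hyy
  have hall : ∀ θ ∈ Set.Icc a b, h (ee θ) = ip (ee θ) y := by
    intro θ hθ
    rcases le_total θ c₁ with hθ1 | hθ1
    · exact hyc' θ ⟨hθ.1, hθ1.trans h12.le⟩
    · exact hyc θ ⟨hθ1, hθ.2⟩
  have hchord : ∀ s t, a ≤ s → s ≤ t → t ≤ b → h (W s - W t) = ip (W s - W t) y := by
    intro s t has hst htb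
    apply le_antisymm _ (hy _)
    have e1 := arc_le hh hst
    change h (W s - W t) ≤ _ at e1
    refine e1.trans (le_of_eq ?_)
    rw [show ip (W s - W t) y = ∫ θ in s..t, ip (ee θ) y from (int_arc s t y).symm]
    apply intervalIntegral.integral_congr
    intro θ hθ
    rw [Set.uIcc_of_le hst] at hθ
    exact hall θ ⟨has.trans hθ.1, hθ.2.trans htb⟩
  have hfin := tr_eq hh ht1 hy (hchord a c₁ le_rfl h1.le (h12.trans h2).le)
    (hchord c₁ b h1.le (h12.trans h2).le le_rfl)
  exact ⟨y, hy, hall, hfin.1, hfin.2⟩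

end Pool.Agent.XQ
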