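import Pool.Agent.Helper31_XQ.Rvm4
import Pool.Agent.Helper17_XQ.Rot

/-!
Squad XQ (MP_5b0138_an), part A, module E4_BLC4: the mass of the loops is the sum of the fluxes in
both orientations up to a bad event.
-/

set_option autoImplicit false

namespace Pool.Agent.XQ.K4.H31

open MeasureTheory Complex Filter Topology ProbabilityTheory Pool.Agent.H16Iso Pool.Agent.H62T
  Pool.Agent.H16F Pool.Agent.H38KL Pool.Agent.AEU
open scoped ENNReal NNReal

variable {n : ℕ} [NeZero n]

/-- rotation of a configuration -/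
def rotE (α : Type) (j : Fin n) : (Fin n → α) ≃ (Fin n → α) :=
  (Equiv.addRight j).symm.arrowCongr (Equiv.refl α)

theorem rotE_apply {α : Type} (j : Fin n) (A : Fin n → α) : rotE α j A = rot j A := rfl

theorem integral_rot (j : Fin n) (f : (Fin n → ℂ) → ℝ) :
    ∫ x, f x = ∫ x : Fin n → ℂ, f (rot j x) := by
  have h := (volume_measurePreserving_piCongrLeft (fun _ : Fin n => ℂ) (Equiv.addRight j)).symm
  have h2 := h.integral_comp (MeasurableEquiv.measurableEmbedding _) f
  rw [← h2]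
  rfl

theorem disj_rot (E : Finset (Fin 4)) (A : Fin n → Finset (Fin 4)) (j : Fin n) :
    (∀ i, Disjoint (rot j A i) E) ↔ ∀ i, Disjoint (A i) E := by
  constructor
  · intro h i
    have := h (i - j)
    unfold rot at this
    rwa [sub_add_cancel] at this
  · intro h i
    exact h _

theorem disj_rvt (E : Finset (Fin 4)) (A : Fin n → Finset (Fin 4)) :
    (∀ i, Disjoint (rvt A i) E) ↔ ∀ i, Disjoint (A i) E := by
  constructor
  · intro h i
    have := h (-(i + 1))
    have e : rvt A (-(i + 1)) = A i := congrFun (rvt_rvt A) i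
    rwa [e] at this
  · intro h i
    exact h _

theorem F4_vis {O E : Finset (Fin 4)} {A : Fin n → Finset (Fin 4)} {j : Fin n}
    (h : F4 O (rot j A)) (hE : ∀ i, Disjoint (A i) E) : Vis (O ∪ {2, 3}) E A := by
  obtain ⟨a, b, -, -, -, h3, h2, hs⟩ := h
  refine ⟨fun s hsO => ?_, hE⟩
  rcases Finset.mem_union.1 hsO with hs1 | hs1
  · obtain ⟨l, -, -, hl⟩ := hs s hs1
    exact ⟨_, hl⟩
  · rcases Finset.mem_insert.1 hs1 with rfl | hs1
    · exact ⟨_, h2⟩
    · rw [Finset.mem_singleton] at hs1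
      subst hs1
      exact ⟨_, h3⟩

open Classical in
/-- the integrand of the flux through block `j` -/
noncomputable def fl (O E : Finset (Fin 4)) (C : Set ℂ) (x : Fin n → ℂ)
    (A : Fin n → Finset (Fin 4)) (w : ℝ) (j : Fin n) : ℝ :=
  (chi C (x (1 + j)) - chi C (x (0 + j))) *
    (if F4 O (rot j A) ∧ ∀ i, Disjoint (A i) E then w else 0)

/-- the flux through block `j` -/
theorem TC_rot (u : Fin 4 → ℂ) (h : Fin 4 → ℝ) (τ : Fin n → ℝ) (O E : Finset (Fin 4)) (C : Set ℂ)
    (j : Fin n) : TC4 u h (rot j τ) O E C =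
      ∑ A : Fin n → Finset (Fin 4), ∫ x, fl O E C x A (wt u h τ x A) j := by
  classical
  unfold TC4
  rw [← Equiv.sum_comp (rotE (Finset (Fin 4)) j)]
  refine Finset.sum_congr rfl (fun A _ => ?_)
  rw [rotE_apply, integral_rot j]
  refine integral_congr_ae (Eventually.of_forall fun x => ?_)
  simp only [H17.wt_rot, disj_rot]
  unfold fl
  by_cases hc : F4 O (rot j A) ∧ ∀ i, Disjoint (A i) E
  · rw [if_pos hc]
    rfl
  · rw [if_neg hc]
    rfl

theorem chi_cases (C : Set ℂ) (x : ℂ) : 0 ≤ chi C x ∧ chi C x ≤ 1 := by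
  unfold chi
  by_cases hx : x ∈ C
  · rw [Set.indicator_of_mem hx]; norm_num
  · rw [Set.indicator_of_notMem hx]; norm_num

theorem chi_meas {C : Set ℂ} (hC : MeasurableSet C) : Measurable (chi C) :=
  measurable_const.indicator hC

theorem wt_nonneg (u : Fin 4 → ℂ) (h : Fin 4 → ℝ) (τ : Fin n → ℝ) (hτ : ∀ j, 0 < τ j)
    (x : Fin n → ℂ) (A : Fin n → Finset (Fin 4)) : 0 ≤ wt u h τ x A :=
  Finset.prod_nonneg fun j _ => kA_nonneg u h (hτ j) _ _ _

theorem wt_meas (u : Fin 4 → ℂ) (h : Fin 4 → ℝ) (τ : Fin n → ℝ) (A : Fin n → Finset (Fin 4)) :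
    Measurable fun x => wt u h τ x A := by
  unfold wt
  refine Finset.measurable_fun_prod _ fun j _ => ?_
  exact kA_meas_comp u h (A j) measurable_const (measurable_pi_apply j)
    (measurable_pi_apply (j + 1))

theorem fl_le (O E : Finset (Fin 4)) (C : Set ℂ) (x : Fin n → ℂ)
    (A : Fin n → Finset (Fin 4)) {w : ℝ} (hw : 0 ≤ w) (j : Fin n) : |fl O E C x A w j| ≤ w := by
  classical
  unfold fl
  rw [abs_mul]
  have a1 := chi_cases C (x (1 + j))
  have a2 := chi_cases C (x (0 + j))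
  have a3 : |chi C (x (1 + j)) - chi C (x (0 + j))| ≤ 1 := by
    rw [abs_le]; constructor <;> linarith
  have a4 : |(if F4 O (rot j A) ∧ ∀ i, Disjoint (A i) E then w else 0)| ≤ w := by
    split_ifs
    · rw [abs_of_nonneg hw]
    · rw [abs_zero]; exact hw
  calc |chi C (x (1 + j)) - chi C (x (0 + j))| *
      |(if F4 O (rot j A) ∧ ∀ i, Disjoint (A i) E then w else 0)| ≤ 1 * w :=
        mul_le_mul a3 a4 (abs_nonneg _) zero_le_one
    _ = w := one_mul w

theorem fl_sum (hTEL : TelStatement) {O E : Finset (Fin 4)} {C : Set ℂ} {x : Fin n → ℂ}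
    {A : Fin n → Finset (Fin 4)} (w : ℝ) (hO : O.Nonempty) (hO1 : O ⊆ {0, 1})
    (hE : ∀ i, Disjoint (A i) E) (hA : Ada C x A) :
    (Cl3 3 2 O A → ∑ j, fl O E C x A w j = w) ∧ (Cl3 2 3 O A → ∑ j, fl O E C x A w j = 0) := by
  classical
  have hT := hTEL n O C x A hO hO1 hA
  refine ⟨fun h1 => ?_, fun h1 => ?_⟩
  · have h2 : ∑ j, fl O E C x A w j =
        w * ∑ j, (chi C (x (j + 1)) - chi C (x j)) * (if F4 O (rot j A) then 1 else 0) := by
      rw [Finset.mul_sum]
      refine Finset.sum_congr rfl (fun j _ => ?_)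
      unfold fl
      rw [zero_add, add_comm 1 j]
      by_cases hj : F4 O (rot j A)
      · rw [if_pos ⟨hj, hE⟩, if_pos hj]; ring
      · rw [if_neg (fun h => hj h.1), if_neg hj]; ring
    have h3 := hT.1 h1
    rw [h2]
    have e : (∑ j, (chi C (x (j + 1)) - chi C (x j)) * (if F4 O (rot j A) then (1 : ℝ) else 0)) = 1 := by
      refine Eq.trans (Finset.sum_congr rfl fun j _ => ?_) h3
      by_cases hj : F4 O (rot j A)
      · rw [if_pos hj]
      · rw [if_neg hj]
    rw [e, mul_one]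
  · refine Finset.sum_eq_zero fun j _ => ?_
    unfold fl
    rw [if_neg (fun h => hT.2 h1 j h.1), mul_zero]

open Classical in
/-- the pointwise bound -/
theorem pointwise (hTEL : TelStatement) (A : Fin n → Finset (Fin 4)) (x : Fin n → ℂ)
    (O E : Finset (Fin 4)) (C : Set ℂ) (w : ℝ) (hw : 0 ≤ w) (hO : O.Nonempty)
    (hO1 : O ⊆ {0, 1}) :
    |(if Vis (O ∪ {2, 3}) E A then w else 0) - ∑ j : Fin n, fl O E C x A w j
        - ∑ j : Fin n, fl O E C (ng x) (rvt A) w j| ≤
      (2 * n + 1) * (if Vis (O ∪ {2, 3}) E A ∧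
        ¬ (Ada C x A ∧ (Cl3 3 2 O A ∨ Cl3 2 3 O A)) then w else 0) := by
  by_cases hV : Vis (O ∪ {2, 3}) E A
  swap
  · have h1 : ∀ j, ¬ (F4 O (rot j A) ∧ ∀ i, Disjoint (A i) E) := fun j hj => hV (F4_vis hj.1 hj.2)
    have h2 : ∀ j, ¬ (F4 O (rot j (rvt A)) ∧ ∀ i, Disjoint (rvt A i) E) := fun j hj =>
      hV ((vis_rvt _ _ _).1 (F4_vis hj.1 hj.2))
    have e1 : ∑ j : Fin n, fl O E C x A w j = 0 := Finset.sum_eq_zero fun j _ => by
      unfold fl
      rw [if_neg (h1 j), mul_zero]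
    have e2 : ∑ j : Fin n, fl O E C (ng x) (rvt A) w j = 0 := Finset.sum_eq_zero fun j _ => by
      unfold fl
      rw [if_neg (h2 j), mul_zero]
    rw [e1, e2, if_neg hV, if_neg (fun h => hV h.1)]
    simp
  have hE : ∀ i, Disjoint (A i) E := hV.2
  have hE' : ∀ i, Disjoint (rvt A i) E := (disj_rvt E A).2 hE
  by_cases hG : Ada C x A ∧ (Cl3 3 2 O A ∨ Cl3 2 3 O A)
  · have hA' : Ada C (ng x) (rvt A) := (ada_rvt C x A).2 hG.1
    have h1 := fl_sum hTEL w hO hO1 hE hG.1
    have h2 := fl_sum hTEL w hO hO1 hE' hA'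
    rw [if_pos hV, if_neg (fun h => h.2 hG), mul_zero]
    rcases hG.2 with hc | hc
    · rw [h1.1 hc, h2.2 ((cl3_rvt 2 3 O A).2 hc)]
      simp
    · rw [h1.2 hc, h2.1 ((cl3_rvt 3 2 O A).2 hc)]
      simp
  · rw [if_pos hV, if_pos ⟨hV, hG⟩]
    have b1 : ∀ (y : Fin n → ℂ) (B : Fin n → Finset (Fin 4)),
        |∑ j : Fin n, fl O E C y B w j| ≤ n * w := by
      intro y B
      refine (Finset.abs_sum_le_sum_abs _ _).trans ?_
      refine (Finset.sum_le_sum fun j _ => fl_le O E C y B hw j).trans ?_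
      rw [Finset.sum_const, Finset.card_univ, Fintype.card_fin, nsmul_eq_mul]
    have c1 := abs_le.1 (b1 x A)
    have c2 := abs_le.1 (b1 (ng x) (rvt A))
    rw [abs_le]
    constructor
    · linarith [c1.1, c1.2, c2.1, c2.2]
    · linarith [c1.1, c1.2, c2.1, c2.2]

open Classical in
/-- module E4_BLC4 -/
theorem blc4 (hTEL : TelStatement) : Blc4Statement := by
  intro u h n _ τ O E C hu hn hτ hO hO1 hE1 hC hfin
  set V : (Fin n → Finset (Fin 4)) → Prop := fun A => Vis (O ∪ {2, 3}) E A with hVdef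
  have htpos : 0 < ∑ j, τ j := Finset.sum_pos (fun j _ => hτ j) ⟨0, Finset.mem_univ _⟩
  have hWm : ∀ A, Measurable fun x => wt u h τ x A := wt_meas u h τ
  have hWn : ∀ A x, 0 ≤ wt u h τ x A := fun A x => wt_nonneg u h τ hτ x A
  have hfin1 : ∀ A : Fin n → Finset (Fin 4), (∫⁻ x, if V A then
      ENNReal.ofReal (wt u h τ x A) else 0) ≠ ⊤ := by
    intro A hA
    apply hfin
    unfold Ms
    exact ENNReal.sum_eq_top.2 ⟨A, Finset.mem_univ _, hA⟩
  have hint : ∀ A, V A → Integrable (fun x => wt u h τ x A) := by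
    intro A hA
    have h1 := hfin1 A
    simp only [if_pos hA] at h1
    refine ⟨(hWm A).aestronglyMeasurable, ?_⟩
    rw [hasFiniteIntegral_iff_ofReal (Eventually.of_forall (hWn A))]
    exact lt_top_iff_ne_top.2 h1
  -- the mass
  have hVM : (Vt u h (O ∪ {2, 3}) E (∑ j, τ j)).toReal =
      ∑ A : Fin n → Finset (Fin 4), ∫ x, (if V A then wt u h τ x A else 0) := by
    have h1 : Vt u h (O ∪ {2, 3}) E (∑ j, τ j) = Ms u h τ (fun _ A => V A) :=
      blv u h n τ hτ (O ∪ {2, 3}) E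
    rw [h1]
    unfold Ms
    rw [ENNReal.toReal_sum (fun A _ => by
      have := hfin1 A
      convert this)]
    refine Finset.sum_congr rfl (fun A _ => ?_)
    by_cases hA : V A
    · simp only [if_pos hA]
      rw [integral_eq_lintegral_of_nonneg_ae (Eventually.of_forall (hWn A))
        (hWm A).aestronglyMeasurable]
    · simp only [if_neg hA]
      rw [lintegral_zero, integral_zero, ENNReal.toReal_zero]
  -- the fluxes
  have hchm : ∀ j : Fin n, Measurable fun x : Fin n → ℂ => chi C (x j) := fun j =>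
    (chi_meas hC).comp (measurable_pi_apply j)
  have hfint : ∀ (A : Fin n → Finset (Fin 4)) (j : Fin n),
      Integrable (fun x : Fin n → ℂ => fl O E C x A (wt u h τ x A) j) := by
    intro A j
    unfold fl
    by_cases hA : F4 O (rot j A) ∧ ∀ i, Disjoint (A i) E
    · simp only [if_pos hA]
      refine (hint A (F4_vis hA.1 hA.2)).mono
        ((((hchm (1 + j)).sub (hchm (0 + j))).mul (hWm A)).aestronglyMeasurable)
        (Eventually.of_forall fun x => ?_)
      rw [norm_mul]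
      have a1 := chi_cases C (x (1 + j))
      have a2 := chi_cases C (x (0 + j))
      have a3 : ‖chi C (x (1 + j)) - chi C (x (0 + j))‖ ≤ 1 := by
        rw [Real.norm_eq_abs, abs_le]; constructor <;> linarith
      exact mul_le_of_le_one_left (norm_nonneg _) a3
    · simp only [if_neg hA, mul_zero]
      exact integrable_zero _ _ _
  have hfint2 : ∀ (A : Fin n → Finset (Fin 4)) (j : Fin n),
      Integrable (fun x : Fin n → ℂ => fl O E C (ng x) (rvt A) (wt u h τ x A) j) := by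
    intro A j
    unfold fl
    by_cases hA : F4 O (rot j (rvt A)) ∧ ∀ i, Disjoint (rvt A i) E
    · simp only [if_pos hA]
      refine (hint A ((vis_rvt _ _ _).1 (F4_vis hA.1 hA.2))).mono
        ((((hchm (-(1 + j))).sub (hchm (-(0 + j)))).mul (hWm A)).aestronglyMeasurable)
        (Eventually.of_forall fun x => ?_)
      rw [norm_mul]
      have a1 := chi_cases C (ng x (1 + j))
      have a2 := chi_cases C (ng x (0 + j))
      have a3 : ‖chi C (ng x (1 + j)) - chi C (ng x (0 + j))‖ ≤ 1 := by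
        rw [Real.norm_eq_abs, abs_le]; constructor <;> linarith
      exact mul_le_of_le_one_left (norm_nonneg _) a3
    · simp only [if_neg hA, mul_zero]
      exact integrable_zero _ _ _
  have hTC : ∑ j : Fin n, TC4 u h (rot j τ) O E C =
      ∑ A : Fin n → Finset (Fin 4), ∫ x : Fin n → ℂ, ∑ j : Fin n,
        fl O E C x A (wt u h τ x A) j := by
    simp_rw [TC_rot]
    rw [Finset.sum_comm]
    refine Finset.sum_congr rfl (fun A _ => ?_)
    rw [integral_finsetSum _ (fun j _ => hfint A j)]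
  have hTC2 : ∑ j : Fin n, TC4 u h (rot j (rvt τ)) O E C =
      ∑ A : Fin n → Finset (Fin 4), ∫ x : Fin n → ℂ, ∑ j : Fin n,
        fl O E C (ng x) (rvt A) (wt u h τ x A) j := by
    simp_rw [TC_rot]
    rw [Finset.sum_comm, ← Equiv.sum_comp (rvE n (Finset (Fin 4)))]
    refine Finset.sum_congr rfl (fun A _ => ?_)
    rw [integral_finsetSum _ (fun j _ => hfint2 A j)]
    refine Finset.sum_congr rfl (fun j _ => ?_)
    show ∫ x, fl O E C x (rvt A) (wt u h (rvt τ) x (rvt A)) j = _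
    rw [← ng_integral (fun x : Fin n → ℂ => fl O E C x (rvt A) (wt u h (rvt τ) x (rvt A)) j)]
    refine integral_congr_ae (Eventually.of_forall fun x => ?_)
    show fl O E C (ng x) (rvt A) (wt u h (rvt τ) (ng x) (rvt A)) j = _
    rw [wt_rvt u h hu τ hτ, ng_ng, rvt_rvt]
  have hVint : ∀ A : Fin n → Finset (Fin 4),
      Integrable (fun x => if V A then wt u h τ x A else 0) := by
    intro A
    by_cases hA : V A
    · simp only [if_pos hA]; exact hint A hA
    · simp only [if_neg hA]; exact integrable_zero _ _ _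
  have hdiff : (Vt u h (O ∪ {2, 3}) E (∑ j, τ j)).toReal -
      ∑ j : Fin n, TC4 u h (rot j τ) O E C - ∑ j : Fin n, TC4 u h (rot j (rvt τ)) O E C =
      ∑ A : Fin n → Finset (Fin 4), ∫ x : Fin n → ℂ,
        ((if V A then wt u h τ x A else 0) - ∑ j : Fin n, fl O E C x A (wt u h τ x A) j
          - ∑ j : Fin n, fl O E C (ng x) (rvt A) (wt u h τ x A) j) := by
    rw [hVM, hTC, hTC2, ← Finset.sum_sub_distrib, ← Finset.sum_sub_distrib]
    refine Finset.sum_congr rfl (fun A _ => ?_)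
    have i1 : Integrable (fun x : Fin n → ℂ => ∑ j : Fin n, fl O E C x A (wt u h τ x A) j) :=
      integrable_finsetSum _ fun j _ => hfint A j
    have i2 : Integrable (fun x : Fin n → ℂ =>
        ∑ j : Fin n, fl O E C (ng x) (rvt A) (wt u h τ x A) j) :=
      integrable_finsetSum _ fun j _ => hfint2 A j
    have i3 : Integrable (fun x : Fin n → ℂ => (if V A then wt u h τ x A else 0) -
        ∑ j : Fin n, fl O E C x A (wt u h τ x A) j) := (hVint A).sub i1
    rw [integral_sub i3 i2, integral_sub (hVint A) i1]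
  rw [hdiff]
  -- the bad event
  have hbad : ∀ A : Fin n → Finset (Fin 4), (∫⁻ x, if V A ∧
      ¬ (Ada C x A ∧ (Cl3 3 2 O A ∨ Cl3 2 3 O A)) then
        ENNReal.ofReal (wt u h τ x A) else 0) ≠ ⊤ := by
    intro A
    refine ne_top_of_le_ne_top (hfin1 A) (lintegral_mono fun x => ?_)
    by_cases h1 : V A ∧ ¬ (Ada C x A ∧ (Cl3 3 2 O A ∨ Cl3 2 3 O A))
    · rw [if_pos h1, if_pos h1.1]
    · rw [if_neg h1]; exact zero_le
  have hMs : (Ms u h τ (fun x A => Vis (O ∪ {2, 3}) E A ∧
      ¬ (Ada C x A ∧ (Cl3 3 2 O A ∨ Cl3 2 3 O A)))).toReal = ∑ A : Fin n → Finset (Fin 4),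
      (∫⁻ x, if V A ∧ ¬ (Ada C x A ∧ (Cl3 3 2 O A ∨ Cl3 2 3 O A)) then
        ENNReal.ofReal (wt u h τ x A) else 0).toReal := by
    rw [← ENNReal.toReal_sum (fun A _ => hbad A)]
    congr 1
    unfold Ms
    refine Finset.sum_congr rfl (fun A _ => lintegral_congr fun x => ?_)
    by_cases h1 : V A ∧ ¬ (Ada C x A ∧ (Cl3 3 2 O A ∨ Cl3 2 3 O A))
    · exact (if_pos h1).trans (if_pos h1).symm
    · exact (if_neg h1).trans (if_neg h1).symm
  rw [hMs, Finset.mul_sum]
  refine (Finset.abs_sum_le_sum_abs _ _).trans (Finset.sum_le_sum fun A _ => ?_)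
  have hn1 : (0 : ℝ) ≤ 2 * n + 1 := by positivity
  have hptw : ∀ x : Fin n → ℂ, ENNReal.ofReal ‖(if V A then wt u h τ x A else 0)
      - ∑ j : Fin n, fl O E C x A (wt u h τ x A) j
      - ∑ j : Fin n, fl O E C (ng x) (rvt A) (wt u h τ x A) j‖ ≤
      ENNReal.ofReal (2 * n + 1) * (if V A ∧ ¬ (Ada C x A ∧ (Cl3 3 2 O A ∨ Cl3 2 3 O A)) then
        ENNReal.ofReal (wt u h τ x A) else 0) := by
    intro x
    have h1 := pointwise hTEL A x O E C (wt u h τ x A) (hWn A x) hO hO1
    rw [Real.norm_eq_abs]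
    refine (ENNReal.ofReal_le_ofReal h1).trans ?_
    rw [ENNReal.ofReal_mul hn1]
    by_cases h2 : V A ∧ ¬ (Ada C x A ∧ (Cl3 3 2 O A ∨ Cl3 2 3 O A))
    · rw [if_pos h2, if_pos h2]
    · rw [if_neg h2, if_neg h2, ENNReal.ofReal_zero]
  have hkey := norm_integral_le_lintegral_norm (μ := volume) (fun x : Fin n → ℂ =>
    ((if V A then wt u h τ x A else 0) - ∑ j : Fin n, fl O E C x A (wt u h τ x A) j
      - ∑ j : Fin n, fl O E C (ng x) (rvt A) (wt u h τ x A) j))
  rw [Real.norm_eq_abs] at hkey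
  refine hkey.trans ?_
  have hle := lintegral_mono (μ := volume) hptw
  rw [lintegral_const_mul' _ _ ENNReal.ofReal_ne_top] at hle
  have htop : ENNReal.ofReal (2 * n + 1) * (∫⁻ x, if V A ∧
      ¬ (Ada C x A ∧ (Cl3 3 2 O A ∨ Cl3 2 3 O A)) then
        ENNReal.ofReal (wt u h τ x A) else 0) ≠ ⊤ :=
    ENNReal.mul_ne_top ENNReal.ofReal_ne_top (hbad A)
  refine (ENNReal.toReal_mono htop hle).trans ?_
  rw [ENNReal.toReal_mul, ENNReal.toReal_ofReal hn1]

end Pool.Agent.XQ.K4.H31
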