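import Pool.Agent.Helper36_XQ.Stmt5

/-!
Squad XQ (MP_5b0138_an), part A, module E4_RVM: reversal of time.
-/

set_option autoImplicit false

namespace Pool.Agent.XQ.K4.H31

open MeasureTheory Complex Filter Topology ProbabilityTheory Pool.Agent.H16Iso Pool.Agent.H62T
  Pool.Agent.H16F Pool.Agent.H38KL Pool.Agent.AEU
open scoped ENNReal NNReal

theorem kA_comm (u : Fin 4 → ℂ) (h : Fin 4 → ℝ) (hu : ∀ s, ‖u s‖ = 1) (A : Finset (Fin 4)) {t : ℝ}
    (ht : 0 < t) (x y : ℂ) : kA u h A t x y = kA u h A t y x :=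
  ((lab u h hu).2 t x y ht).2.2.2.1 A

/-- reversal of the points -/
def ng {n : ℕ} [NeZero n] (x : Fin n → ℂ) (j : Fin n) : ℂ := x (-j)

theorem rvt_rvt {n : ℕ} [NeZero n] {β : Type} (f : Fin n → β) : rvt (rvt f) = f := by
  funext j
  show f (-(-(j + 1) + 1)) = f j
  congr 1
  rw [neg_add, neg_neg, add_assoc, add_neg_cancel, add_zero]

theorem ng_ng {n : ℕ} [NeZero n] (x : Fin n → ℂ) : ng (ng x) = x := by
  funext j
  show x (- -j) = x j
  rw [neg_neg]

/-- index map of the reversal -/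
def rve (n : ℕ) [NeZero n] : Fin n ≃ Fin n where
  toFun j := -(j + 1)
  invFun j := -(j + 1)
  left_inv j := by
    show -(-(j + 1) + 1) = j
    rw [neg_add, neg_neg, add_assoc, add_neg_cancel, add_zero]
  right_inv j := by
    show -(-(j + 1) + 1) = j
    rw [neg_add, neg_neg, add_assoc, add_neg_cancel, add_zero]

theorem wt_rvt {n : ℕ} [NeZero n] (u : Fin 4 → ℂ) (h : Fin 4 → ℝ) (hu : ∀ s, ‖u s‖ = 1)
    (τ : Fin n → ℝ) (hτ : ∀ j, 0 < τ j) (x : Fin n → ℂ) (A : Fin n → Finset (Fin 4)) :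
    wt u h (rvt τ) x A = wt u h τ (ng x) (rvt A) := by
  unfold wt
  refine Fintype.prod_equiv (rve n) _ _ fun j => ?_
  show kA u h (A j) (τ (-(j + 1))) (x j) (x (j + 1))
    = kA u h (A (-(-(j + 1) + 1))) (τ (-(j + 1))) (x (- -(j + 1))) (x (-(-(j + 1) + 1)))
  have e1 : -(-(j + 1) + 1) = j := by
    rw [neg_add, neg_neg, add_assoc, add_neg_cancel, add_zero]
  rw [e1, neg_neg]
  exact kA_comm u h hu (A j) (hτ _) _ _

theorem ng_mp (n : ℕ) [NeZero n] :
    MeasurePreserving (ng : (Fin n → ℂ) → (Fin n → ℂ)) volume volume := by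
  have h := (volume_measurePreserving_piCongrLeft (fun _ : Fin n => ℂ) (Equiv.neg (Fin n))).symm
  exact h

theorem ng_lintegral {n : ℕ} [NeZero n] (f : (Fin n → ℂ) → ℝ≥0∞) :
    ∫⁻ x, f (ng x) = ∫⁻ x, f x := by
  have h := (volume_measurePreserving_piCongrLeft (fun _ : Fin n => ℂ) (Equiv.neg (Fin n))).symm
  have h2 := h.lintegral_comp_emb (MeasurableEquiv.measurableEmbedding _) f
  exact h2

theorem ng_integral {n : ℕ} [NeZero n] (f : (Fin n → ℂ) → ℝ) :
    ∫ x, f (ng x) = ∫ x, f x := by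
  have h := (volume_measurePreserving_piCongrLeft (fun _ : Fin n => ℂ) (Equiv.neg (Fin n))).symm
  have h2 := h.integral_comp (MeasurableEquiv.measurableEmbedding _) f
  exact h2

/-- reversal of the labels -/
def rvE (n : ℕ) [NeZero n] (β : Type) : (Fin n → β) ≃ (Fin n → β) where
  toFun := rvt
  invFun := rvt
  left_inv := rvt_rvt
  right_inv := rvt_rvt

theorem ofNat_rev {n : ℕ} [NeZero n] {l : ℕ} (hl : l < n) (j : Fin n) :
    Fin.ofNat n (n - 1 - l) + -j = -(Fin.ofNat n l + j + 1) := by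
  have h0 : Fin.ofNat n (n - 1 - l) + (Fin.ofNat n l + 1) = 0 := by
    apply Fin.ext
    have hn : 0 < n := Nat.pos_of_ne_zero (NeZero.ne n)
    simp only [Fin.val_add, Fin.ofNat, Fin.val_one']
    rw [Nat.mod_eq_of_lt hl]
    have h1 : (n - 1 - l) % n = n - 1 - l := Nat.mod_eq_of_lt (by omega)
    rw [h1]
    have h2 : (n - 1 - l + (l + 1 % n) % n) % n = (n - 1 - l + (l + 1)) % n := by
      rw [Nat.add_mod l (1 % n) n, Nat.mod_mod, ← Nat.add_mod l 1 n, Nat.add_mod, Nat.mod_mod,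
        ← Nat.add_mod]
    rw [h2]
    have h3 : n - 1 - l + (l + 1) = n := by omega
    rw [h3, Nat.mod_self]
    simp
  have h4 : Fin.ofNat n (n - 1 - l) = -(Fin.ofNat n l + 1) := eq_neg_of_add_eq_zero_left h0
  rw [h4, add_right_comm, neg_add (Fin.ofNat n l + 1) j]

theorem ada_rvt {n : ℕ} [NeZero n] (C : Set ℂ) (x : Fin n → ℂ) (A : Fin n → Finset (Fin 4)) :
    Ada C (fun j => x (-j)) (rvt A) ↔ Ada C x A := by
  have key : ∀ (y : Fin n → ℂ) (B : Fin n → Finset (Fin 4)), Ada C y B →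
      Ada C (fun j => y (-j)) (rvt B) := by
    intro y B hB
    refine ⟨fun j hj => ?_, fun j hj => ?_⟩
    · have h1 := hB.1 (-(j + 1)) hj
      have e : -(j + 1) + 1 = -j := by rw [neg_add, add_assoc, neg_add_cancel, add_zero]
      rw [e] at h1
      exact ⟨h1.2, h1.1⟩
    · have h1 := hB.2 (-(j + 1)) hj
      have e : -(j + 1) + 1 = -j := by rw [neg_add, add_assoc, neg_add_cancel, add_zero]
      rw [e] at h1
      exact ⟨h1.2, h1.1⟩
  constructor
  · intro hA
    have h1 := key _ _ hA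
    rw [rvt_rvt] at h1
    simp only [neg_neg] at h1
    exact h1
  · exact key x A

theorem vis_rvt {n : ℕ} [NeZero n] (M E : Finset (Fin 4)) (A : Fin n → Finset (Fin 4)) :
    Vis M E (rvt A) ↔ Vis M E A := by
  have key : ∀ B : Fin n → Finset (Fin 4), Vis M E B → Vis M E (rvt B) := by
    intro B hB
    refine ⟨fun s hs => ?_, fun j => hB.2 _⟩
    obtain ⟨j, hj⟩ := hB.1 s hs
    refine ⟨-(j + 1), ?_⟩
    show s ∈ B (-(-(j + 1) + 1))
    rw [neg_add, neg_neg, add_assoc, add_neg_cancel, add_zero]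
    exact hj
  constructor
  · intro hA
    have h1 := key _ hA
    rwa [rvt_rvt] at h1
  · exact key A

theorem rot_rvt {n : ℕ} [NeZero n] {l : ℕ} (hl : l < n) (j : Fin n) (A : Fin n → Finset (Fin 4)) :
    rot j (rvt A) (Fin.ofNat n l) = rot (-j) A (Fin.ofNat n (n - 1 - l)) := by
  show A (-(Fin.ofNat n l + j + 1)) = A (Fin.ofNat n (n - 1 - l) + -j)
  rw [ofNat_rev hl]

theorem cl3_rvt {n : ℕ} [NeZero n] (s s' : Fin 4) (O : Finset (Fin 4))
    (A : Fin n → Finset (Fin 4)) : Cl3 s s' O (rvt A) ↔ Cl3 s' s O A := by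
  have key : ∀ (s s' : Fin 4) (B : Fin n → Finset (Fin 4)), Cl3 s s' O B →
      Cl3 s' s O (rvt B) := by
    intro s s' B hB
    obtain ⟨j, a, b, hab, hbn, ⟨⟨l1, hl1, hs1⟩, h1⟩, ⟨hO, h2⟩, ⟨l3, hl3b, hl3n, hs3⟩, h3⟩ := hB
    have hr : ∀ l : ℕ, l < n → rot (-j) (rvt B) (Fin.ofNat n l) = rot j B (Fin.ofNat n (n - 1 - l)) := by
      intro l hl
      rw [rot_rvt hl, neg_neg]
    refine ⟨-j, n - b, n - a, by omega, by omega, ⟨⟨n - 1 - l3, by omega, ?_⟩, ?_⟩, ⟨?_, ?_⟩,
      ⟨n - 1 - l1, by omega, by omega, ?_⟩, ?_⟩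
    · rw [hr _ (by omega)]
      have e : n - 1 - (n - 1 - l3) = l3 := by omega
      rw [e]
      exact hs3
    · intro l hl
      rw [hr _ (by omega)]
      exact h3 _ (by omega) (by omega)
    · intro i hi
      obtain ⟨l, ha, hb, hm⟩ := hO i hi
      refine ⟨n - 1 - l, by omega, by omega, ?_⟩
      rw [hr _ (by omega)]
      have e : n - 1 - (n - 1 - l) = l := by omega
      rw [e]
      exact hm
    · intro l ha hb
      rw [hr _ (by omega)]
      exact h2 _ (by omega) (by omega)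
    · rw [hr _ (by omega)]
      have e : n - 1 - (n - 1 - l1) = l1 := by omega
      rw [e]
      exact hs1
    · intro l hl hln
      rw [hr _ (by omega)]
      exact h1 _ (by omega)
  constructor
  · intro hA
    have h1 := key _ _ _ hA
    rwa [rvt_rvt] at h1
  · intro hA
    exact key _ _ _ hA

/-- module E4_RVM -/
theorem rvm : RvmStatement := by
  refine ⟨?_, ?_⟩
  · intro u h n _ τ P hu hτ
    classical
    unfold Ms
    have e1 : ∀ A : Fin n → Finset (Fin 4),
        (∫⁻ x : Fin n → ℂ, if P (fun j => x (-j)) (rvt A) then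
            ENNReal.ofReal (wt u h (rvt τ) x A) else 0)
          = ∫⁻ x : Fin n → ℂ, if P x (rvt A) then ENNReal.ofReal (wt u h τ x (rvt A)) else 0 := by
      intro A
      rw [← ng_lintegral (fun x : Fin n → ℂ =>
        if P x (rvt A) then ENNReal.ofReal (wt u h τ x (rvt A)) else 0)]
      refine lintegral_congr fun x => ?_
      rw [wt_rvt u h hu τ hτ]
      rfl
    refine Fintype.sum_equiv (rvE n (Finset (Fin 4))) _ _ fun A => ?_
    exact e1 A
  · intro n _ O E M C x A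
    exact ⟨ada_rvt C x A, vis_rvt M E A, fun s s' => cl3_rvt s s' O A⟩

end Pool.Agent.XQ.K4.H31
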